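import Mathlib
import Pool.Agent.X55.Rigid

/-!
The tree of shifted standard Young tableaux has no nontrivial automorphism.
-/

namespace Pool.Agent.Results.MP_c76eb3_co.ShiftedTreeRigid

open Pool.Agent.X55.Rigid

/-- Strict partitions `lam 0 > lam 1 > ... > lam (l-1) > 0 = lam l = lam (l+1) = ...`. -/
def IsStrict (lam : ℕ → ℕ) : Prop := ∀ i, lam (i + 1) ≠ 0 → lam (i + 1) < lam i

/-- A shifted standard Young tableau. It is given by the list of its cells `(row, column)`
(rows and columns counted from `0`) in the order of their entries: the `m`-th cell of the list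
contains the entry `m`. The cells are distinct and form the shifted diagram of a strict
partition (row `i` occupies the columns `i ≤ j < i + lam i`), and entries increase along rows and
down columns: a cell occurring later in the list is neither to the left (same row) nor above
(same column) of an earlier one. -/
@[ext] structure ShSYT where
  cells : List (ℕ × ℕ)
  nodup : cells.Nodup
  shape : ∃ lam, IsStrict lam ∧ ∀ c : ℕ × ℕ, c ∈ cells ↔ (c.1 ≤ c.2 ∧ c.2 < c.1 + lam c.1)
  incr : cells.Pairwise
    (fun c d => ¬ (d.1 = c.1 ∧ d.2 < c.2) ∧ ¬ (d.2 = c.2 ∧ d.1 < c.1))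

/-- `T` is the parent of `T'`: it is obtained by deleting the cell with the largest entry. -/
def IsParent (T T' : ShSYT) : Prop := ∃ c, T'.cells = T.cells ++ [c]

noncomputable def sh (T : ShSYT) : ℕ → ℕ := T.shape.choose

theorem sh_strict (T : ShSYT) : IsStrict (sh T) := T.shape.choose_spec.1

theorem mem_iff (T : ShSYT) (c : ℕ × ℕ) :
    c ∈ T.cells ↔ (c.1 ≤ c.2 ∧ c.2 < c.1 + sh T c.1) :=
  T.shape.choose_spec.2 c

theorem strict_add {lam : ℕ → ℕ} (h : IsStrict lam) (j t : ℕ) (hne : lam (j + t) ≠ 0) :
    lam (j + t) + t ≤ lam j := by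
  induction t with
  | zero => simp
  | succ t ih =>
    have h1 := h (j + t) hne
    have h2 := ih (by omega)
    have h3 : lam (j + (t + 1)) = lam (j + t + 1) := rfl
    omega

/-- Moves in row `r`. -/
def Mv (r : ℕ) (T T' : ShSYT) : Prop := ∃ j, T'.cells = T.cells ++ [(r, j)]

theorem isParent_iff (T T' : ShSYT) : IsParent T T' ↔ ∃ r, Mv r T T' := by
  constructor
  · rintro ⟨⟨r, j⟩, h⟩
    exact ⟨r, j, h⟩
  · rintro ⟨r, j, h⟩
    exact ⟨(r, j), h⟩

theorem move_spec {r : ℕ} {T T' : ShSYT} (h : Mv r T T') :
    T'.cells = T.cells ++ [(r, r + sh T r)] ∧ sh T' r = sh T r + 1 ∧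
      ∀ i, i ≠ r → sh T' i = sh T i := by
  obtain ⟨j, h⟩ := h
  have hnot : (r, j) ∉ T.cells := by
    have := T'.nodup
    rw [h, List.nodup_append] at this
    intro hm
    exact this.2.2 _ hm _ (by simp) rfl
  rw [mem_iff] at hnot
  have hmem : ∀ c : ℕ × ℕ, (c.1 ≤ c.2 ∧ c.2 < c.1 + sh T' c.1) ↔
      ((c.1 ≤ c.2 ∧ c.2 < c.1 + sh T c.1) ∨ c = (r, j)) := by
    intro c
    rw [← mem_iff, ← mem_iff, h]
    simp
  have hrow : ∀ x, (r ≤ x ∧ x < r + sh T' r) ↔ ((r ≤ x ∧ x < r + sh T r) ∨ x = j) := by
    intro x
    have := hmem (r, x)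
    simpa using this
  have hrj := (hrow j).2 (Or.inr rfl)
  simp only at hnot
  have hj : j = r + sh T r := by
    have h3 := (hrow (r + sh T r)).1
    omega
  subst hj
  refine ⟨h, ?_, ?_⟩
  · have h2 := (hrow (r + (sh T r + 1))).1
    omega
  · intro i hi
    have hrow' : ∀ x, (i ≤ x ∧ x < i + sh T' i) ↔ (i ≤ x ∧ x < i + sh T i) := by
      intro x
      have := hmem (i, x)
      simpa [hi] using this
    have h1 := hrow' (i + sh T i)
    have h2 := hrow' (i + sh T' i)
    omega

/-- Rows to which a cell can be added. -/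
def Add (lam : ℕ → ℕ) (r : ℕ) : Prop := r = 0 ∨ lam r + 1 < lam (r - 1)

theorem exists_move {r : ℕ} {T : ShSYT} (hr : Add (sh T) r) : ∃ T', Mv r T T' := by
  have hst := sh_strict T
  refine ⟨⟨T.cells ++ [(r, r + sh T r)], ?_, ?_, ?_⟩, r + sh T r, rfl⟩
  · rw [List.nodup_append]
    refine ⟨T.nodup, by simp, ?_⟩
    rintro a ha b hb rfl
    rw [List.mem_singleton] at hb
    rw [hb, mem_iff] at ha
    exact lt_irrefl _ ha.2
  · refine ⟨Function.update (sh T) r (sh T r + 1), ?_, ?_⟩
    · intro n
      simp only [Function.update_apply]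
      have h1 := hst n
      by_cases h2 : n + 1 = r
      · rw [if_pos h2, if_neg (by omega)]
        rcases hr with h3 | h3
        · omega
        · intro _
          rw [← h2] at h3 ⊢
          simpa using h3
      · rw [if_neg h2]
        split_ifs with h3
        · intro h4
          have := h1 h4
          rw [← h3]
          omega
        · exact h1
    · rintro ⟨i, j⟩
      rw [List.mem_append, List.mem_singleton, mem_iff]
      simp only [Function.update_apply, Prod.mk.injEq]
      split_ifs with h1
      · rw [h1]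
        simp only [true_and]
        omega
      · simp [h1]
  · rw [List.pairwise_append]
    refine ⟨T.incr, by simp, ?_⟩
    rintro ⟨i, j⟩ hc d hd
    rw [List.mem_singleton] at hd
    subst hd
    rw [mem_iff] at hc
    simp only at hc ⊢
    refine ⟨?_, ?_⟩
    · rintro ⟨rfl, h2⟩
      omega
    · rintro ⟨h1, h2⟩
      have h3 := strict_add hst r (i - r) (by rw [Nat.add_sub_cancel' h2.le]; omega)
      rw [Nat.add_sub_cancel' h2.le] at h3
      omega

theorem add_of_move {r : ℕ} {T T' : ShSYT} (h : Mv r T T') : Add (sh T) r := by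
  obtain ⟨h1, h2, h3⟩ := move_spec h
  by_cases hr : r = 0
  · exact Or.inl hr
  · right
    have h4 := sh_strict T' (r - 1)
    rw [Nat.sub_add_cancel (by omega), h3 (r - 1) (by omega)] at h4
    have := h4 (by omega)
    omega

/-- The number of moves in rows `> j` needed to make the tail from row `j` a staircase. -/
noncomputable def D (j : ℕ) (T : ShSYT) : ℕ :=
  ∑ t ∈ Finset.range (sh T j + 1), (sh T j - t - sh T (j + t))

/-- After adding a cell to each of the rows `0, ..., j-1`, row `j` is addable. -/
theorem bump (T : ShSYT) (j : ℕ) (hj : sh T j ≠ 0) : ∃ T1, Reach Mv j T T1 ∧ Add (sh T1) j ∧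
    ∀ i, j ≤ i → sh T1 i = sh T i := by
  induction j with
  | zero => exact ⟨T, Relation.ReflTransGen.refl, Or.inl rfl, fun i _ => rfl⟩
  | succ j ih =>
    have hlt := sh_strict T j hj
    obtain ⟨T1, h1, h2, h3⟩ := ih (by omega)
    obtain ⟨T2, h4⟩ := exists_move h2
    obtain ⟨h5, h6, h7⟩ := move_spec h4
    refine ⟨T2, ?_, Or.inr ?_, ?_⟩
    · exact Relation.ReflTransGen.tail (reach_mono (Nat.le_succ j) h1) ⟨j, Nat.lt_succ_self j, h4⟩
    · simp only [Nat.add_sub_cancel]
      rw [h6, h7 (j + 1) (by omega), h3 j le_rfl, h3 (j + 1) (by omega)]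
      omega
    · intro i hi
      rw [h7 i (by omega), h3 i (by omega)]

/-- If `D j T ≠ 0` then a row below row `j` is addable. -/
theorem exists_low (j : ℕ) (T : ShSYT) (hne : D j T ≠ 0) : ∃ r T', j < r ∧ Mv r T T' := by
  unfold D at hne
  obtain ⟨t, ht, hne⟩ := Finset.exists_ne_zero_of_sum_ne_zero hne
  have hex : ∃ t, sh T (j + t) + t < sh T j := ⟨t, by omega⟩
  classical
  have h1 := Nat.find_spec hex
  set m := Nat.find hex with hm
  have hm0 : m ≠ 0 := by
    intro h
    rw [h] at h1
    simp at h1
  have h2 : ¬ (sh T (j + (m - 1)) + (m - 1) < sh T j) := Nat.find_min hex (by omega)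
  have h3 : sh T (j + m) + 1 < sh T (j + m - 1) := by
    rw [show j + m - 1 = j + (m - 1) by omega]
    omega
  obtain ⟨T', hT'⟩ := exists_move (T := T) (r := j + m) (Or.inr h3)
  exact ⟨j + m, T', by omega, hT'⟩

theorem hyp : Hyp Mv D where
  hU := by
    intro r s T T' h1 h2
    have e1 := (move_spec h1).1
    have e2 := (move_spec h2).1
    rw [e1] at e2
    have := List.append_cancel_left e2
    simp at this
    exact this.1
  hG := by
    intro r T T' T'' h1 h2
    ext1
    rw [(move_spec h1).1, (move_spec h2).1]
  hA := by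
    intro j r T T' hr hm
    obtain ⟨-, -, h3⟩ := move_spec hm
    unfold D
    rw [h3 j (by omega)]
    refine Finset.sum_congr rfl fun t _ => ?_
    rw [h3 (j + t) (by omega)]
  hB := by
    intro j T T' hm
    obtain ⟨-, h2, h3⟩ := move_spec hm
    unfold D
    calc ∑ t ∈ Finset.range (sh T j + 1), (sh T j - t - sh T (j + t))
        ≤ ∑ t ∈ Finset.range (sh T j + 1), (sh T' j - t - sh T' (j + t)) := by
          refine Finset.sum_le_sum fun t _ => ?_
          by_cases ht : t = 0
          · subst ht; simp
          · rw [h3 (j + t) (by omega), h2]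
            omega
      _ ≤ ∑ t ∈ Finset.range (sh T' j + 1), (sh T' j - t - sh T' (j + t)) := by
          apply Finset.sum_le_sum_of_subset
          rw [h2]
          exact Finset.range_subset_range.2 (by omega)
  hC := by
    intro j r T T' hr hm
    obtain ⟨-, h2, h3⟩ := move_spec hm
    have h4 := strict_add (sh_strict T') j (r - j)
    rw [Nat.add_sub_cancel' hr.le, h2, h3 j (by omega)] at h4
    have h5 := h4 (by omega)
    have hmem : r - j ∈ Finset.range (sh T j + 1) := Finset.mem_range.2 (by omega)
    unfold D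
    rw [h3 j (by omega), ← Finset.add_sum_erase _ _ hmem, ← Finset.add_sum_erase _ _ hmem]
    have e1 : ∑ t ∈ (Finset.range (sh T j + 1)).erase (r - j), (sh T j - t - sh T' (j + t)) =
        ∑ t ∈ (Finset.range (sh T j + 1)).erase (r - j), (sh T j - t - sh T (j + t)) := by
      refine Finset.sum_congr rfl fun t ht => ?_
      rw [Finset.mem_erase] at ht
      rw [h3 (j + t) (by omega)]
    rw [e1, Nat.add_sub_cancel' hr.le, h2]
    omega
  hD := exists_low
  hE := by
    intro j T hne
    have hj : sh T j ≠ 0 := by
      intro h0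
      apply hne
      unfold D
      rw [h0]
      simp
    obtain ⟨T1, hr, hadd, hsame⟩ := bump T j hj
    have hne1 : D j T1 ≠ 0 := by
      have : D j T1 = D j T := by
        unfold D
        rw [hsame j le_rfl]
        refine Finset.sum_congr rfl fun t _ => ?_
        rw [hsame (j + t) (by omega)]
      rw [this]
      exact hne
    obtain ⟨T2, h2⟩ := exists_move hadd
    obtain ⟨m, T3, hm, h3⟩ := exists_low j T1 hne1
    refine ⟨T1, hr, j, m, T2, T3, le_rfl, hm.le, h2, h3, ?_⟩
    rintro rfl
    have e1 := (move_spec h2).1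
    have e2 := (move_spec h3).1
    rw [e1] at e2
    have := List.append_cancel_left e2
    simp at this
    omega

/-- The empty tableau. -/
def root : ShSYT :=
  ⟨[], List.nodup_nil, ⟨fun _ => 0, fun _ h => absurd rfl h, by simp⟩, List.Pairwise.nil⟩

/-- Every nonempty tableau has a parent. -/
theorem exists_parent (T : ShSYT) : T = root ∨ ∃ r P, Mv r P T := by
  rcases List.eq_nil_or_concat T.cells with h | ⟨l, ⟨r, j⟩, h⟩
  · left
    ext1
    exact h
  · right
    rw [List.concat_eq_append] at h
    have hst := sh_strict T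
    have hnd := T.nodup
    rw [h, List.nodup_append] at hnd
    have hinc := T.incr
    rw [h, List.pairwise_append] at hinc
    have hmem : ∀ c : ℕ × ℕ, c ∈ l ∨ c = (r, j) ↔ (c.1 ≤ c.2 ∧ c.2 < c.1 + sh T c.1) := by
      intro c
      rw [← mem_iff, h]
      simp
    have hj : r ≤ j ∧ j < r + sh T r := (hmem (r, j)).1 (Or.inr rfl)
    -- the last cell ends its row
    have hlast : r + sh T r = j + 1 := by
      by_contra hne
      have h1 : (r, j + 1) ∈ l := by
        rcases (hmem (r, j + 1)).2 (by
          show r ≤ j + 1 ∧ j + 1 < r + sh T r; omega) with h2 | h2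
        · exact h2
        · simp at h2
      have h2 := (hinc.2.2 _ h1 (r, j) (by simp)).1
      exact h2 ⟨rfl, Nat.lt_succ_self j⟩
    -- the row below is shorter
    have hbelow : sh T (r + 1) ≠ 0 → sh T (r + 1) < j - r := by
      intro hne
      by_contra hlt
      have h0 := hst r hne
      have h1 : (r + 1, j) ∈ l := by
        rcases (hmem (r + 1, j)).2 (by
          show r + 1 ≤ j ∧ j < r + 1 + sh T (r + 1); omega) with h2 | h2
        · exact h2
        · simp at h2
      have h2 := (hinc.2.2 _ h1 (r, j) (by simp)).2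
      exact h2 ⟨rfl, Nat.lt_succ_self r⟩
    refine ⟨r, ⟨l, hnd.1, ⟨Function.update (sh T) r (j - r), ?_, ?_⟩, hinc.1⟩, j, h⟩
    · intro n
      simp only [Function.update_apply]
      have h1 := hst n
      split_ifs with h2 h3 h3
      · omega
      · rw [h2] at h1
        intro _
        have := h1 (by omega)
        omega
      · rw [h3]; exact hbelow
      · exact h1
    · rintro ⟨i, x⟩
      have h1 := hmem (i, x)
      simp only [Function.update_apply]
      by_cases h2 : i = r
      · subst h2
        simp only [if_true]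
        constructor
        · intro h3
          have h4 : i ≤ x ∧ x < i + sh T i := h1.1 (Or.inl h3)
          have h5 : x ≠ j := by
            rintro rfl
            exact hnd.2.2 _ h3 _ (by simp) rfl
          omega
        · intro h3
          rcases h1.2 (by show i ≤ x ∧ x < i + sh T i; omega) with h4 | h4
          · exact h4
          · simp only [Prod.mk.injEq, true_and] at h4
            omega
      · simp only [h2, if_false]
        rw [← h1]
        simp [h2]

/-- The identity is the only automorphism of the tree of shifted standard Young tableaux. -/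
theorem result (φ : ShSYT ≃ ShSYT) (hφ : ∀ T T', IsParent T T' ↔ IsParent (φ T) (φ T')) :
    φ = Equiv.refl ShSYT := by
  have hroot : ∀ r P, ¬ Mv r P root := by
    rintro r P ⟨j, h⟩
    have := congrArg List.length h
    simp [root] at this
  have hs : ∀ r (P T : ShSYT), Mv r P T → T.cells.length = P.cells.length + 1 := by
    rintro r P T ⟨j, h⟩
    rw [h]
    simp
  refine eq_refl hyp root (fun T => T.cells.length) exists_parent hroot hs φ ?_
  intro T T'
  rw [← isParent_iff, ← isParent_iff]
  exact hφ T T'

end Pool.Agent.Results.MP_c76eb3_co.ShiftedTreeRigid
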